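import Mathlib

set_option autoImplicit false

namespace Pool.Agent.Results.MP_cc637b_co.Windmill

/-- An oriented simple graph: no loops, at most one of `uv`, `vu` is an arc. -/
def IsDigraph {V : Type} (D : V → V → Prop) : Prop := ∀ u v, D u v → ¬ D v u

/-- `A` is the arc set of a finite directed cycle of `D`. -/
def IsDirCycle {V : Type} (D : V → V → Prop) (A : V → V → Prop) : Prop :=
  ∃ (k : ℕ) (f : Fin (k + 2) → V), Function.Injective f ∧ (∀ i, D (f i) (f (i + 1))) ∧
    ∀ u v, A u v ↔ ∃ i, u = f i ∧ v = f (i + 1)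

/-- The digraph obtained from `D` by reversing the arcs in `A`. -/
def rev {V : Type} (D A : V → V → Prop) (u v : V) : Prop := (D u v ∧ ¬ A u v) ∨ A v u

/-- `C` (below `ζ`) is a reversal sequence of length `ζ` for `D`, and `S ξ` is the digraph after
the first `ξ` reversals. -/
def IsRevSeq {V : Type} (D : V → V → Prop) (ζ : Ordinal.{0})
    (C S : Ordinal.{0} → V → V → Prop) : Prop :=
  S 0 = D ∧ (∀ ξ < ζ, IsDirCycle (S ξ) (C ξ) ∧ S (ξ + 1) = rev (S ξ) (C ξ)) ∧
    ∀ η ≤ ζ, Order.IsSuccLimit η →
      (∀ u v, {ξ | ξ < η ∧ (C ξ u v ∨ C ξ v u)}.Finite) ∧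
      ∀ u v, ∃ ξ₀ < η, ∀ ξ, ξ₀ ≤ ξ → ξ < η → (S ξ u v ↔ S η u v)

/-- The strong component of `v`. -/
def strongComp {V : Type} (D : V → V → Prop) (v : V) : Set V :=
  {u | Relation.ReflTransGen D u v ∧ Relation.ReflTransGen D v u}

abbrev VV := Option (ℕ × Bool)

/-- the windmill with triangle `n` oriented according to `s n` -/
def W (s : ℕ → Bool) : VV → VV → Prop
  | none, none => False
  | none, some (n, b) => b = s n
  | some (n, b), none => b ≠ s n
  | some (n, b), some (m, c) => n = m ∧ b = s n ∧ c ≠ s n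

lemma cyc_out {V : Type} {D A : V → V → Prop} (h : IsDirCycle D A) {u v : V} (huv : A u v) :
    D u v ∧ (∃ w, A v w) ∧ ∃ w, A w u := by
  obtain ⟨k, f, -, hD, hA⟩ := h
  obtain ⟨i, rfl, rfl⟩ := (hA u v).1 huv
  exact ⟨hD i, ⟨f (i + 1 + 1), (hA _ _).2 ⟨i + 1, rfl, rfl⟩⟩,
    ⟨f (i - 1), (hA _ _).2 ⟨i - 1, rfl, by rw [sub_add_cancel]⟩⟩⟩

lemma rev_W (s : ℕ → Bool) (A : VV → VV → Prop) (h : IsDirCycle (W s) A) :
    ∃ t, rev (W s) A = W t := by
  classical
  have h1 : ∀ n, A none (some (n, s n)) → A (some (n, s n)) (some (n, !s n)) := by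
    intro n hn
    obtain ⟨-, ⟨w, hw⟩, -⟩ := cyc_out h hn
    have hD := (cyc_out h hw).1
    rcases w with _ | ⟨m, c⟩
    · exact absurd rfl hD
    · obtain ⟨rfl, -, hc⟩ := hD
      rwa [Bool.eq_not_of_ne hc] at hw
  have h2 : ∀ n, A (some (n, s n)) (some (n, !s n)) → A (some (n, !s n)) none := by
    intro n hn
    obtain ⟨-, ⟨w, hw⟩, -⟩ := cyc_out h hn
    have hD := (cyc_out h hw).1
    rcases w with _ | ⟨m, c⟩
    · exact hw
    · exact absurd hD.2.1 (by simp)
  have h3 : ∀ n, A (some (n, !s n)) none → A (some (n, s n)) (some (n, !s n)) := by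
    intro n hn
    obtain ⟨-, -, w, hw⟩ := cyc_out h hn
    have hD := (cyc_out h hw).1
    rcases w with _ | ⟨m, c⟩
    · exact absurd hD (by simp [W])
    · obtain ⟨rfl, rfl, -⟩ := hD
      exact hw
  have h4 : ∀ n, A (some (n, s n)) (some (n, !s n)) → A none (some (n, s n)) := by
    intro n hn
    obtain ⟨-, -, w, hw⟩ := cyc_out h hn
    have hD := (cyc_out h hw).1
    rcases w with _ | ⟨m, c⟩
    · exact hw
    · obtain ⟨rfl, -, hc⟩ := hD
      exact absurd rfl hc
  have e1 : ∀ n, A (some (n, s n)) (some (n, !s n)) ↔ A none (some (n, s n)) :=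
    fun n => ⟨h4 n, h1 n⟩
  have e2 : ∀ n, A (some (n, !s n)) none ↔ A none (some (n, s n)) :=
    fun n => ⟨fun h => h4 n (h3 n h), fun h => h2 n (h1 n h)⟩
  clear h1 h2 h3 h4
  have hsub : ∀ u v, A u v → W s u v := fun u v huv => (cyc_out h huv).1
  refine ⟨fun n => if A none (some (n, s n)) then !s n else s n, ?_⟩
  funext u v
  apply propext
  have a1 := hsub u v
  have a2 := hsub v u
  rcases u with _ | ⟨n, b⟩ <;> rcases v with _ | ⟨m, c⟩
  · simp only [rev, W] at *; tauto
  · simp only [rev, W] at *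
    by_cases hc : c = s m
    · subst hc; split_ifs <;> simp_all
    · obtain rfl := Bool.eq_not_of_ne hc
      split_ifs <;> simp_all
  · simp only [rev, W] at *
    by_cases hc : b = s n
    · subst hc; split_ifs <;> simp_all
    · obtain rfl := Bool.eq_not_of_ne hc
      split_ifs <;> simp_all
  · by_cases hnm : n = m
    · subst hnm
      simp only [rev, W] at *
      by_cases hb : b = s n <;> by_cases hc : c = s n
      · subst hb; subst hc; split_ifs <;> simp_all
      · subst hb
        obtain rfl := Bool.eq_not_of_ne hc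
        split_ifs <;> simp_all
      · subst hc
        obtain rfl := Bool.eq_not_of_ne hb
        split_ifs <;> simp_all
      · obtain rfl := Bool.eq_not_of_ne hb
        obtain rfl := Bool.eq_not_of_ne hc
        split_ifs <;> simp_all
    · simp only [rev, W] at *
      have hmn : ¬ m = n := fun h => hnm h.symm
      tauto

lemma strong_W (s : ℕ → Bool) : (strongComp (W s) none).Infinite := by
  refine Set.infinite_of_injective_forall_mem (f := fun n : ℕ => (some (n, s n) : VV))
    (fun a b h => by simpa using congrArg (Option.map Prod.fst) h) fun n => ⟨?_, ?_⟩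
  · refine Relation.ReflTransGen.head (b := some (n, !s n)) ⟨rfl, rfl, by simp⟩ ?_
    exact Relation.ReflTransGen.single (by simp [W])
  · exact Relation.ReflTransGen.single rfl

theorem result : ∃ (V : Type) (_ : Countable V) (D : V → V → Prop), IsDigraph D ∧
    ∀ (ζ : Ordinal.{0}) (C S : Ordinal.{0} → V → V → Prop), IsRevSeq D ζ C S →
      ∃ v, (strongComp (S ζ) v).Infinite := by
  classical
  refine ⟨VV, inferInstance, W (fun _ => true), ?_, ?_⟩
  · rintro (_ | ⟨n, b⟩) (_ | ⟨m, c⟩) <;> simp [W]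
    rintro rfl rfl rfl; simp
  · rintro ζ C S ⟨h0, hs, hl⟩
    have key : ∀ η, η ≤ ζ → ∃ t, S η = W t := by
      intro η
      induction η using Ordinal.limitRecOn with
      | zero => exact fun _ => ⟨_, h0⟩
      | add_one ξ ih =>
        intro hξ
        have hξ' : ξ < ζ := lt_of_lt_of_le (lt_add_one ξ) hξ
        obtain ⟨t, ht⟩ := ih hξ'.le
        obtain ⟨h1, h2⟩ := hs ξ hξ'
        rw [h2, ht]
        rw [ht] at h1
        exact rev_W t _ h1
      | limit η hη ih =>
        intro hηζ
        obtain ⟨-, h2⟩ := hl η hηζ hη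
        refine ⟨fun n => decide (S η none (some (n, true))), ?_⟩
        funext u v
        apply propext
        have aux : ∀ n : ℕ, ∃ t, (S η u v ↔ W t u v) ∧
            t n = decide (S η none (some (n, true))) := by
          intro n
          obtain ⟨a, ha, ha'⟩ := h2 u v
          obtain ⟨b, hb, hb'⟩ := h2 none (some (n, true))
          have hm : max a b < η := max_lt ha hb
          obtain ⟨t, ht⟩ := ih _ hm (hm.le.trans hηζ)
          refine ⟨t, by rw [← ht]; exact (ha' _ (le_max_left _ _) hm).symm, ?_⟩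
          have := hb' _ (le_max_right _ _) hm
          rw [ht] at this
          simp only [W] at this
          cases h : t n <;> simp_all
        rcases u with _ | ⟨n, b⟩ <;> rcases v with _ | ⟨m, c⟩
        · obtain ⟨t, h1, -⟩ := aux 0
          exact h1
        · obtain ⟨t, h1, h3⟩ := aux m
          rw [h1]; simp only [W, h3]
        · obtain ⟨t, h1, h3⟩ := aux n
          rw [h1]; simp only [W, h3]
        · obtain ⟨t, h1, h3⟩ := aux n
          rw [h1]; simp only [W, h3]
    obtain ⟨t, ht⟩ := key ζ le_rfl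
    exact ⟨none, ht ▸ strong_W t⟩

end Pool.Agent.Results.MP_cc637b_co.Windmill
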